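import Pool.Agent.H74.OneP.Stmts

/-! Module C1: the first return map. -/

namespace Pool.Agent.H74.OneP

open Equiv Equiv.Perm Drawing

namespace C1aux

/-- first return map of `f` to the range of `i` -/
theorem first_return {D T : Type} [Finite D] [Finite T] (f : Perm D) (i : T → D)
    (hi : Function.Injective i) :
    ∃ τ : Perm T, (∀ x, ∃ j, 0 < j ∧ (f ^ j) (i x) = i (τ x) ∧
      ∀ l, 0 < l → l < j → ∀ t, (f ^ l) (i x) ≠ i t) ∧
      ∀ x y, τ.SameCycle x y ↔ f.SameCycle (i x) (i y) := by
  classical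
  have hex : ∀ x, ∃ j, 0 < j ∧ ∃ t, (f ^ j) (i x) = i t := by
    intro x
    refine ⟨orderOf f, orderOf_pos f, x, ?_⟩
    rw [pow_orderOf_eq_one]
    rfl
  choose n hn using fun x => (⟨Nat.find (hex x), Nat.find_spec (hex x), fun m hm =>
    Nat.find_min (hex x) hm⟩ : ∃ n, (0 < n ∧ ∃ t, (f ^ n) (i x) = i t) ∧
      ∀ m, m < n → ¬ (0 < m ∧ ∃ t, (f ^ m) (i x) = i t))
  choose F hF using fun x => (hn x).1.2
  have hmin : ∀ x l, 0 < l → l < n x → ∀ t, (f ^ l) (i x) ≠ i t := by
    intro x l h1 h2 t ht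
    exact (hn x).2 l h2 ⟨h1, t, ht⟩
  have hinj : Function.Injective F := by
    have key : ∀ x y, n x ≤ n y → F x = F y → x = y := by
      intro x y hle hxy
      have h1 : (f ^ n x) (i x) = (f ^ n y) (i y) := by rw [hF, hF, hxy]
      obtain ⟨d, hd⟩ := Nat.exists_eq_add_of_le hle
      rw [hd, pow_add, Equiv.Perm.mul_apply] at h1
      have h2 : i x = (f ^ d) (i y) := (f ^ n x).injective h1
      rcases Nat.eq_zero_or_pos d with h0 | h0
      · subst h0
        exact hi h2
      · exact absurd h2.symm (hmin y d h0 (by have := (hn x).1.1; omega) x)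
    intro x y hxy
    rcases le_total (n x) (n y) with h | h
    · exact key x y h hxy
    · exact (key y x h hxy.symm).symm
  set τ : Perm T := Equiv.ofBijective F (Finite.injective_iff_bijective.1 hinj) with hτ
  have hτF : ∀ x, τ x = F x := fun x => rfl
  refine ⟨τ, fun x => ⟨n x, (hn x).1.1, by rw [hτF, hF], hmin x⟩, fun x y => ⟨?_, ?_⟩⟩
  · intro h
    obtain ⟨m, hm⟩ := h.exists_nat_pow_eq
    have key : ∀ m : ℕ, f.SameCycle (i x) (i ((τ ^ m) x)) := by
      intro m
      induction m with
      | zero => exact SameCycle.refl _ _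
      | succ m ih =>
        rw [pow_succ', Equiv.Perm.mul_apply, hτF, ← hF]
        exact ih.trans ⟨(n ((τ ^ m) x) : ℤ), by rw [zpow_natCast]⟩
    rw [← hm]
    exact key m
  · intro h
    obtain ⟨m, hm⟩ := h.exists_nat_pow_eq
    have key : ∀ m : ℕ, ∀ x, (f ^ m) (i x) = i y → τ.SameCycle x y := by
      intro m
      induction m using Nat.strong_induction_on with
      | _ m ih =>
        intro x hx
        rcases Nat.eq_zero_or_pos m with h0 | h0
        · subst h0
          rw [hi hx]
        · have h1 : n x ≤ m := by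
            by_contra hlt
            exact hmin x m h0 (by omega) y hx
          obtain ⟨d, hd⟩ := Nat.exists_eq_add_of_le h1
          have h2 : (f ^ d) (i (τ x)) = i y := by
            rw [hτF, ← hF, ← Equiv.Perm.mul_apply, ← pow_add, add_comm d, ← hd]
            exact hx
          have h3 := ih d (by have := (hn x).1.1; omega) (τ x) h2
          exact (Equiv.Perm.sameCycle_apply_left).1 h3
    exact key m x hm

end C1aux

/-- C1 -/
theorem c1 : TauStmt := by
  intro M
  obtain ⟨τ, h1, h2⟩ := C1aux.first_return M.rot⁻¹ (fun x : M.XD => M.rev x.1)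
    (fun x y h => Subtype.ext (M.rev.injective h))
  refine ⟨τ, ⟨fun x y => ?_, fun x => ?_⟩⟩
  · rw [h2, M.org_iff, Equiv.Perm.sameCycle_inv]
  · obtain ⟨j, hj, hj1, hj2⟩ := h1 x
    refine ⟨j, hj, hj1, fun i hi1 hi2 hcr => ?_⟩
    exact hj2 i hi1 hi2 ⟨_, hcr⟩ (by simp)

end Pool.Agent.H74.OneP
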