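import Pool.Agent.H74.OneP.Stmts

/-! Module C2: the kernel axioms. -/

namespace Pool.Agent.H74.OneP

open Equiv Equiv.Perm Drawing

/-- C2 -/
theorem c2' : KernelStmt := by
  intro M G τ hτ
  have hfar : ∀ x : M.XD, M.far (M.rev x.1) = M.rev (M.rot (M.rot x.1)) := by
    intro x
    have h : M.cr (M.rev (M.rev x.1)) := by simpa using x.2
    rw [far_of_cr h, rev_rev']
  have hnc : ∀ x : M.XD, ¬ M.cr (M.rev x.1) := fun x => not_cr_rev x.2
  refine ⟨fun x => Subtype.ext (cr_four x.2), fun x => ?_, fun x => ?_, fun x y h1 h2 => ?_⟩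
  · rw [hτ.same]
    exact G.simple.cross_ends x.1 x.2
  · rw [hτ.same]
    have h := G.no_loop (hnc x)
    rw [hfar] at h
    exact h.symm
  · rw [hτ.same] at h1 h2
    have h : M.rev x.1 = M.rev y.1 := by
      refine G.no_multi (hnc x) h1 ?_
      rw [hfar, hfar]
      exact h2
    exact Subtype.ext (M.rev.injective h)

end Pool.Agent.H74.OneP
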