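import Pool.Agent.H74.OneP.Stmts

/-! Module C3: Euler's formula for the kernel. -/

namespace Pool.Agent.H74.OneP

open Equiv Equiv.Perm Drawing

namespace C3aux

variable {M : Drawing}

open Classical in
/-- extension of a function on the crossing darts -/
noncomputable def ext (h : M.XD → ZMod 2) (d : M.D) : ZMod 2 :=
  (if hd : M.cr d then h ⟨d, hd⟩ else 0) + (if hd : M.cr (M.rev d) then h ⟨M.rev d, hd⟩ else 0)

theorem ext_cr (h : M.XD → ZMod 2) (x : M.XD) : ext h x.1 = h x := by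
  have h1 := not_cr_rev x.2
  unfold ext
  rw [dif_pos x.2, dif_neg h1, add_zero]
  rfl

theorem ext_none (h : M.XD → ZMod 2) {d : M.D} (h1 : ¬ M.cr d) (h2 : ¬ M.cr (M.rev d)) :
    ext h d = 0 := by
  unfold ext
  rw [dif_neg h1, dif_neg h2, add_zero]

theorem sum_ext (h : M.XD → ZMod 2) (G : M.D → ZMod 2) :
    ∑ d, G d * ext h d = ∑ x : M.XD, G x.1 * h x + ∑ x : M.XD, G (M.rev x.1) * h x := by
  classical
  have key : ∀ G : M.D → ZMod 2, ∑ d, G d * (if hd : M.cr d then h ⟨d, hd⟩ else 0) =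
      ∑ x : M.XD, G x.1 * h x := by
    intro G
    have h1 : ∀ d, G d * (if hd : M.cr d then h ⟨d, hd⟩ else 0) =
        if hd : M.cr d then G d * h ⟨d, hd⟩ else 0 := by
      intro d
      split_ifs <;> simp
    simp_rw [h1]
    rw [← Finset.sum_filter_add_sum_filter_not Finset.univ (fun d => M.cr d)]
    have h2 : ∑ d ∈ Finset.univ.filter (fun d => ¬ M.cr d),
        (if hd : M.cr d then G d * h ⟨d, hd⟩ else 0) = 0 := by
      apply Finset.sum_eq_zero
      intro d hd
      rw [dif_neg (by simpa using hd)]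
    rw [h2, add_zero]
    symm
    refine Finset.sum_bij (fun (x : M.XD) _ => x.1) ?_ ?_ ?_ ?_
    · intro x _
      simpa using x.2
    · intro x _ y _ hxy
      exact Subtype.ext hxy
    · intro d hd
      exact ⟨⟨d, by simpa using hd⟩, Finset.mem_univ _, rfl⟩
    · intro x _
      rw [dif_pos x.2]
      rfl
  unfold ext
  simp_rw [mul_add]
  rw [Finset.sum_add_distrib, key]
  congr 1
  rw [← key (fun d => G (M.rev d)), ← Equiv.sum_comp M.rev]
  refine Finset.sum_congr rfl fun d _ => ?_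
  have hr : M.rev (M.rev d) = d := rev_rev' d
  by_cases hd : M.cr d
  · rw [dif_pos hd, dif_pos (by rw [hr]; exact hd)]
    congr 2
    exact Subtype.ext hr
  · rw [dif_neg hd, dif_neg (by rw [hr]; exact hd)]

theorem bal_rot (τ : Perm M.XD) (hτ : IsTau τ) (h : M.XD → ZMod 2) (h1 : Bal M.rho⁻¹ h)
    (h2 : Bal τ h) : Bal M.rot (ext h) := by
  intro G hG
  rw [sum_ext]
  have hG' : ∀ (j : ℕ) d, G ((M.rot⁻¹ ^ j) d) = G d := by
    intro j
    induction j with
    | zero => intro d; rfl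
    | succ j ih =>
      intro d
      rw [pow_succ', Equiv.Perm.mul_apply]
      have := hG (M.rot⁻¹ ((M.rot⁻¹ ^ j) d))
      have h0 : M.rot (M.rot⁻¹ ((M.rot⁻¹ ^ j) d)) = (M.rot⁻¹ ^ j) d := by simp
      rw [h0] at this
      rw [← this]
      exact ih d
  have e1 : ∑ x : M.XD, G x.1 * h x = 0 := h1 (fun x => G x.1) (fun x => by
    have h3 : (M.rho⁻¹ x).1 = M.rot⁻¹ x.1 := rfl
    change G (M.rho⁻¹ x).1 = G x.1
    rw [h3]
    exact hG' 1 x.1)
  have e2 : ∑ x : M.XD, G (M.rev x.1) * h x = 0 := h2 (fun x => G (M.rev x.1)) (fun x => by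
    obtain ⟨j, -, hj, -⟩ := hτ.step x
    rw [← hj]
    exact hG' j _)
  rw [e1, e2, add_zero]

theorem bal_rev (h : M.XD → ZMod 2) : Bal M.rev (ext h) := by
  intro G hG
  rw [sum_ext]
  simp_rw [hG]
  exact CharTwo.add_self_eq_zero _

end C3aux

theorem orb_inv {D : Type*} (p : Perm D) : orb p⁻¹ = orb p := by
  have h : SameCycle.setoid p⁻¹ = SameCycle.setoid p := by
    ext a b
    exact Equiv.Perm.sameCycle_inv
  unfold orb
  rw [h]

theorem comps_inv {D : Type*} (p q : Perm D) : comps p⁻¹ q = comps p q := by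
  have h : SameCycle.setoid p⁻¹ = SameCycle.setoid p := by
    ext a b
    exact Equiv.Perm.sameCycle_inv
  unfold comps
  rw [h]

open C3aux in
/-- C3 -/
theorem c3 (hH : HypStmt) (hC : CurveStmt) : KEulerStmt := by
  intro M τ hτ
  have h1 := ((hH M.XD M.rho⁻¹ τ).2).2 (by
    intro h hr ht
    obtain ⟨g, hg1, hg2⟩ := (hC M).1 (ext h) (bal_rot τ hτ h hr ht) (bal_rev h)
    refine ⟨fun x => g x.1, fun x => ?_, fun x => ?_⟩
    · change g (M.rot⁻¹ (τ x).1) = g x.1
      obtain ⟨j, hj, hj1, hj2⟩ := hτ.step x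
      have hnc : ∀ i, ¬ M.cr ((M.rot⁻¹ ^ i) (M.rev x.1)) := by
        intro i
        induction i with
        | zero => exact not_cr_rev x.2
        | succ i ih => rw [pow_succ', Equiv.Perm.mul_apply, cr_rotinv]; exact ih
      have key : ∀ i, i < j → g ((M.rot⁻¹ ^ (i + 1)) (M.rev x.1)) =
          g (M.rot⁻¹ (M.rev x.1)) := by
        intro i
        induction i with
        | zero => intro _; rfl
        | succ i ih =>
          intro hi
          have h3 := hg2 ((M.rot⁻¹ ^ (i + 1)) (M.rev x.1))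
          rw [ext_none h (hnc _) (hj2 (i + 1) (by omega) hi)] at h3
          rw [pow_succ' _ (i + 1), Equiv.Perm.mul_apply, ← ih (by omega)]
          have h4 : g (M.rot⁻¹ ((M.rot⁻¹ ^ (i + 1)) (M.rev x.1))) =
              - g ((M.rot⁻¹ ^ (i + 1)) (M.rev x.1)) := by
            rw [eq_neg_iff_add_eq_zero, add_comm]
            exact h3.symm
          rw [h4, CharTwo.neg_eq]
      obtain ⟨i, rfl⟩ := Nat.exists_eq_add_of_lt hj
      have h5 := key (0 + i) (by omega)
      rw [hj1] at h5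
      have h6 := hg1 x.1
      rw [nxt_apply] at h6
      have h7 := hg1 (M.rev (τ x).1)
      rw [nxt_apply, rev_rev'] at h7
      rw [h7, h5, h6]
    · have h3 := hg2 x.1
      rw [ext_cr] at h3
      exact h3)
  rw [orb_inv, comps_inv] at h1
  rw [h1]
  simp [Nat.card_eq_fintype_card]

end Pool.Agent.H74.OneP
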