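import Pool.Agent.H74.OneP.Stmts

/-! Module C4: counting crossing darts and vertices. -/

namespace Pool.Agent.H74.OneP

open Equiv Equiv.Perm Drawing

namespace C4aux

variable (M : Drawing)

theorem card_xd : Nat.card M.XD = 4 * Nat.card M.X := by
  classical
  have hb : ∀ x : M.X, ∃ d : M.D, M.org d = Sum.inr x := fun x => M.org_surj _
  choose b hb using hb
  have horg : ∀ (x : M.X) (i : ℕ), M.org ((M.rot ^ i) (b x)) = Sum.inr x := by
    intro x i
    induction i with
    | zero => exact hb x
    | succ i ih => rw [pow_succ', Equiv.Perm.mul_apply, org_rot, ih]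
  have h4 : ∀ x : M.X, (M.rot ^ 4) (b x) = b x := by
    intro x
    have h := M.cross_four (b x) x (hb x)
    simpa [pow_succ, Equiv.Perm.mul_apply] using h
  have h2 : ∀ x : M.X, (M.rot ^ 2) (b x) ≠ b x := by
    intro x
    have h := M.cross_two (b x) x (hb x)
    simpa [pow_succ, Equiv.Perm.mul_apply] using h
  have h1 : ∀ x : M.X, (M.rot ^ 1) (b x) ≠ b x := by
    intro x h
    apply h2 x
    have : (M.rot ^ 2) (b x) = (M.rot ^ 1) ((M.rot ^ 1) (b x)) := by
      rw [← Equiv.Perm.mul_apply, ← pow_add]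
    rw [this, h, h]
  have h3 : ∀ x : M.X, (M.rot ^ 3) (b x) ≠ b x := by
    intro x h
    apply h1 x
    have : (M.rot ^ 4) (b x) = (M.rot ^ 1) ((M.rot ^ 3) (b x)) := by
      rw [← Equiv.Perm.mul_apply, ← pow_add]
    rw [h] at this
    exact this.symm.trans (h4 x)
  let f : M.X × Fin 4 → M.XD := fun p => ⟨(M.rot ^ (p.2 : ℕ)) (b p.1), ⟨p.1, horg p.1 p.2⟩⟩
  have hinj : Function.Injective f := by
    rintro ⟨x, i⟩ ⟨y, j⟩ h
    have h' : (M.rot ^ (i : ℕ)) (b x) = (M.rot ^ (j : ℕ)) (b y) := congrArg Subtype.val h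
    have hxy : x = y := by
      have := congrArg M.org h'
      rw [horg, horg] at this
      exact Sum.inr_injective this
    subst hxy
    have key : ∀ i j : Fin 4, i < j → (M.rot ^ (i : ℕ)) (b x) ≠ (M.rot ^ (j : ℕ)) (b x) := by
      intro i j hij he
      obtain ⟨d, hd⟩ := Nat.exists_eq_add_of_lt (Fin.lt_def.1 hij)
      rw [hd, add_assoc, pow_add, Equiv.Perm.mul_apply] at he
      have h5 : b x = (M.rot ^ (d + 1)) (b x) := (M.rot ^ (i : ℕ)).injective he
      have h6 : d < 3 := by have := j.2; omega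
      interval_cases d
      · exact h1 x h5.symm
      · exact h2 x h5.symm
      · exact h3 x h5.symm
    rcases lt_trichotomy i j with hij | hij | hij
    · exact absurd h' (key i j hij)
    · rw [hij]
    · exact absurd h'.symm (key j i hij)
  have hsurj : Function.Surjective f := by
    rintro ⟨d, x, hx⟩
    obtain ⟨m, hm⟩ := ((M.org_iff (b x) d).1 ((hb x).trans hx.symm)).exists_nat_pow_eq
    refine ⟨(x, ⟨m % 4, Nat.mod_lt _ (by norm_num)⟩), Subtype.ext ?_⟩
    change (M.rot ^ (m % 4)) (b x) = d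
    have h7 : ∀ k : ℕ, ((M.rot ^ 4) ^ k) (b x) = b x := by
      intro k
      induction k with
      | zero => rfl
      | succ k ih => rw [pow_succ', Equiv.Perm.mul_apply, ih, h4]
    rw [← hm]
    conv_rhs => rw [← Nat.mod_add_div m 4, pow_add, pow_mul, Equiv.Perm.mul_apply, h7]
  rw [← Nat.card_congr (Equiv.ofBijective f ⟨hinj, hsurj⟩), Nat.card_prod, Nat.card_fin, mul_comm]

theorem card_v (τ : Perm M.XD) (hτ : IsTau τ) : orb τ + Nat.card (IV M) = Nat.card M.V := by
  classical
  have hv : ∀ x : M.XD, ∃ v, M.org (M.rev x.1) = Sum.inl v := fun x =>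
    (not_cr_iff _).1 (not_cr_rev x.2)
  choose v hv using hv
  let p : M.V → Prop := fun v => ∀ d, M.org d = Sum.inl v → ¬ M.cr (M.rev d)
  have hp : ∀ x : M.XD, ¬ p (v x) := by
    intro x h
    exact h _ (hv x) (by simpa using x.2)
  let F : Quotient (SameCycle.setoid τ) → {w : M.V // ¬ p w} :=
    Quotient.lift (fun x => ⟨v x, hp x⟩) (by
      intro x y hxy
      have h1 : τ.SameCycle x y := hxy
      rw [hτ.same, hv, hv] at h1
      exact Subtype.ext (Sum.inl_injective h1))
  have hF : Function.Bijective F := by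
    constructor
    · intro a b
      induction a using Quotient.inductionOn with
      | _ x =>
      induction b using Quotient.inductionOn with
      | _ y =>
      intro h
      have h1 : v x = v y := congrArg Subtype.val h
      apply Quotient.sound
      change τ.SameCycle x y
      rw [hτ.same, hv, hv, h1]
    · rintro ⟨w, hw⟩
      simp only [p, not_forall, not_not] at hw
      obtain ⟨d, hd, hcr⟩ := hw
      refine ⟨Quotient.mk _ ⟨M.rev d, hcr⟩, ?_⟩
      apply Subtype.ext
      have h1 := hv ⟨M.rev d, hcr⟩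
      rw [rev_rev', hd] at h1
      exact (Sum.inl_injective h1).symm
  have h1 : orb τ = Nat.card {w : M.V // ¬ p w} := Nat.card_congr (Equiv.ofBijective F hF)
  have h2 : Nat.card (IV M) = Nat.card {w : M.V // p w} := rfl
  rw [h1, h2, ← Nat.card_congr (Equiv.sumCompl p), Nat.card_sum, add_comm]

end C4aux

/-- C4 -/
theorem c4 : KCountStmt := by
  intro M τ hτ
  exact ⟨C4aux.card_xd M, C4aux.card_v M τ hτ⟩

end Pool.Agent.H74.OneP
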