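import Pool.Agent.H74.OneP.Stmts

/-! Module C5: one step of `ρ⁻¹ τ`. -/

namespace Pool.Agent.H74.OneP

open Equiv Equiv.Perm Drawing

namespace C5aux

variable {M : Drawing}

/-- `b` is reached from `a` in `n` steps over uncrossed darts with `P` -/
def Chain (P : M.D → Prop) (a : M.D) (n : ℕ) (b : M.D) : Prop :=
  (M.rot⁻¹ ^ n) a = b ∧ ∀ i, i < n → ¬ M.cr (M.rev ((M.rot⁻¹ ^ i) a)) ∧ P ((M.rot⁻¹ ^ i) a)

theorem chain_cons {P : M.D → Prop} {a b : M.D} {n : ℕ} (h1 : ¬ M.cr (M.rev a)) (h2 : P a)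
    (h : Chain P (M.rot⁻¹ a) n b) : Chain P a (n + 1) b := by
  refine ⟨?_, fun i hi => ?_⟩
  · rw [pow_succ, Equiv.Perm.mul_apply]
    exact h.1
  · rcases Nat.eq_zero_or_pos i with h0 | h0
    · subst h0
      exact ⟨h1, h2⟩
    · obtain ⟨j, rfl⟩ := Nat.exists_eq_add_of_lt h0
      have h3 := h.2 j (by omega)
      have h4 : (M.rot⁻¹ ^ (0 + j + 1)) a = (M.rot⁻¹ ^ j) (M.rot⁻¹ a) := by
        rw [zero_add, pow_succ, Equiv.Perm.mul_apply]
      rw [h4]
      exact h3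

theorem chain_snoc {P : M.D → Prop} {a b : M.D} {n : ℕ} (h : Chain P a n b)
    (h1 : ¬ M.cr (M.rev b)) (h2 : P b) : Chain P a (n + 1) (M.rot⁻¹ b) := by
  refine ⟨?_, fun i hi => ?_⟩
  · rw [pow_succ', Equiv.Perm.mul_apply, h.1]
  · rcases Nat.lt_succ_iff_lt_or_eq.1 hi with h0 | h0
    · exact h.2 i h0
    · subst h0
      rw [h.1]
      exact ⟨h1, h2⟩

theorem chain_of_lkp {P : M.D → Prop} {a b : M.D} (h : LkP P a b) : ∃ n, Chain P a n b := by
  induction h with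
  | refl a => exact ⟨0, rfl, fun i hi => absurd hi (Nat.not_lt_zero i)⟩
  | step a b h1 h2 h3 _ ih =>
    obtain ⟨n, hn⟩ := ih
    exact ⟨n + 1, chain_cons h2 h3 hn⟩

end C5aux

open C5aux in
/-- C5 -/
theorem c5 : StepStmt := by
  intro M τ hτ P k k' hk hg hg' hP hL hP' x y hx hy
  obtain ⟨n, hn⟩ := chain_of_lkp hL
  -- the beginning
  have hstart : ∃ n₀, Chain P (M.rot⁻¹ (M.rev x.1)) n₀ k' := by
    by_cases h : M.cr (M.rev k)
    · refine ⟨n, ?_⟩
      have h1 : M.rot⁻¹ (M.rev x.1) = nx k := by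
        rw [hx, kp, nx, if_pos h, if_pos h, nxt_apply (M.nxt k)]
      rw [h1]
      exact hn
    · have h1 : M.rot⁻¹ (M.rev x.1) = M.rev k := by
        rw [hx, kp, if_neg h, ← nxt_apply]
        rcases hg with hg | hg
        · exact absurd hg h
        · exact hg.2.2
      have h2 : M.rot⁻¹ (M.rev k) = nx k := by
        rw [nx, if_neg h, nxt_apply]
      refine ⟨n + 1, ?_⟩
      rw [h1]
      refine chain_cons (by simpa using hk) (hP h) ?_
      rw [h2]
      exact hn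
  obtain ⟨n₀, h₀⟩ := hstart
  -- the end
  have hend : ∃ N e, Chain P (M.rot⁻¹ (M.rev x.1)) N e ∧ M.cr (M.rev e) ∧
      M.rot⁻¹ (M.rev e) = kp k' := by
    by_cases h : M.cr (M.rev k')
    · refine ⟨n₀, k', h₀, h, ?_⟩
      rw [kp, if_pos h, nxt_apply]
    · refine ⟨n₀ + 1, M.rot⁻¹ k', chain_snoc h₀ h (hP' h), ?_, ?_⟩
      · rcases hg' with hg' | hg'
        · exact absurd hg' h
        · have h1 := hg'.2.1
          rw [nxt_apply (M.rev k'), rev_rev'] at h1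
          exact h1
      · rw [kp, if_neg h, nxt_apply (M.nxt (M.rev k')), nxt_apply (M.rev k'), rev_rev']
  obtain ⟨N, e, hN, hcr, hkp⟩ := hend
  obtain ⟨j, hj, hj1, hj2⟩ := hτ.step x
  have hshift : ∀ i, (M.rot⁻¹ ^ (i + 1)) (M.rev x.1) = (M.rot⁻¹ ^ i) (M.rot⁻¹ (M.rev x.1)) := by
    intro i
    rw [pow_succ, Equiv.Perm.mul_apply]
  have hjN : j = N + 1 := by
    rcases lt_trichotomy j (N + 1) with h | h | h
    · exfalso
      obtain ⟨i, rfl⟩ := Nat.exists_eq_add_of_lt hj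
      have h1 := (hN.2 (0 + i) (by omega)).1
      rw [← hshift, hj1] at h1
      exact h1 (by simpa using (τ x).2)
    · exact h
    · exfalso
      refine hj2 (N + 1) (by omega) h ?_
      rw [hshift, hN.1]
      exact hcr
  have hτx : M.rev (τ x).1 = e := by
    rw [← hj1, hjN, hshift, hN.1]
  refine ⟨?_, ?_⟩
  · rw [Equiv.Perm.inv_eq_iff_eq]
    apply Subtype.ext
    have h1 : (M.rho y).1 = M.rot y.1 := rfl
    have h2 : M.rot (M.rot⁻¹ (M.rev e)) = M.rev e := by simp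
    rw [h1, hy, ← hkp, h2, ← hτx, rev_rev']
  · rintro u ⟨i, hi, hi1, hi2⟩
    obtain ⟨l, rfl⟩ := Nat.exists_eq_add_of_lt hi
    have hl : 0 + l < N := by
      by_contra hlt
      have h1 := hi2 (N + 1) (by omega) (by omega)
      rw [hshift, hN.1] at h1
      exact h1 hcr
    rw [← hi1, hshift]
    exact (hN.2 _ hl).2

end Pool.Agent.H74.OneP
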