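import Pool.Agent.H74.OneP.Stmts

/-! Module C9: case distinction. -/

namespace Pool.Agent.H74.OneP

open Equiv Equiv.Perm Drawing

theorem C9aux.three {M : Drawing} {e e' : M.D} (h : M.rot (M.rot (M.rot e')) = e')
    (ho : M.org e = M.org e') : e = e' ∨ e = M.rot e' ∨ e = M.rot (M.rot e') := by
  obtain ⟨m, hm⟩ := ((M.org_iff e' e).1 ho.symm).exists_nat_pow_eq
  have key : ∀ m : ℕ, (M.rot ^ m) e' = e' ∨ (M.rot ^ m) e' = M.rot e' ∨
      (M.rot ^ m) e' = M.rot (M.rot e') := by
    intro m
    induction m with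
    | zero => exact Or.inl rfl
    | succ m ih =>
      rw [pow_succ', Equiv.Perm.mul_apply]
      rcases ih with ih | ih | ih
      · rw [ih]; exact Or.inr (Or.inl rfl)
      · rw [ih]; exact Or.inr (Or.inr rfl)
      · rw [ih, h]; exact Or.inl rfl
  have := key m
  rwa [hm] at this

/-- C9 -/
theorem c9 (hF : FullStmt) (hP : PairOrbStmt) (hB : BadOrbStmt) (hpair : PairStmt)
    (hbad : BadStmt) : OrbStmt := by
  intro M G hX τ hτ
  have inter_of : ∀ {e e' : M.D}, M.org e' = M.org e → inter e → inter e' := by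
    intro e e' ho he d hd
    exact he d (hd.trans ho)
  constructor
  · intro e he
    by_cases h : ∃ e', M.org e' = M.org e ∧ inter (M.rev e')
    · obtain ⟨e', ho, hi⟩ := h
      have h1 := hpair M G hX e' (inter_of ho he) hi
      exact ⟨M.rot e', by rw [org_rot, ho], h1.2.2.1⟩
    · push Not at h
      by_cases h2 : gs (M.nxt e)
      · exact ⟨e, rfl, h2⟩
      · obtain ⟨-, -, -, -, -, -, -, -, h3, -⟩ := hbad M G hX e he h h2
        exact ⟨M.rot e, by rw [org_rot], h3⟩
  · intro e he hg x hx
    by_cases h : ∃ e', M.org e' = M.org e ∧ inter (M.rev e')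
    · obtain ⟨e', ho, hi⟩ := h
      obtain ⟨h1, -, -, -, -, h2, h3⟩ := hpair M G hX e' (inter_of ho he) hi
      rcases C9aux.three h1 ho.symm with h4 | h4 | h4
      · rw [h4] at hg; exact absurd hg h2
      · subst h4
        exact hP M G hX τ hτ e' (inter_of ho he) hi x hx
      · rw [h4] at hg; exact absurd hg h3
    · push Not at h
      by_cases h2 : ∃ e', M.org e' = M.org e ∧ ¬ gs (M.nxt e')
      · obtain ⟨e', ho, hb⟩ := h2
        have hn : ∀ e'', M.org e'' = M.org e' → ¬ inter (M.rev e'') := fun e'' h' =>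
          h e'' (h'.trans ho)
        obtain ⟨h1, -⟩ := hbad M G hX e' (inter_of ho he) hn hb
        rcases C9aux.three h1 ho.symm with h4 | h4 | h4
        · rw [h4] at hg; exact absurd hg hb
        · exact hB M G hX τ hτ e' (inter_of ho he) hn hb e (Or.inl h4) x hx
        · exact hB M G hX τ hτ e' (inter_of ho he) hn hb e (Or.inr h4) x hx
      · push Not at h2
        exact hF M G hX τ hτ e he (fun e' ho => ⟨h2 e' ho, h e' ho⟩) x hx

end Pool.Agent.H74.OneP
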