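import Pool.Agent.H74.OneP.Stmts

/-! Module E2: small orders. -/

namespace Pool.Agent.H74.OneP

open Equiv Equiv.Perm Drawing

namespace E2aux

/-- a fixed point free permutation -/
theorem two_orb {X : Type} [Finite X] (p : Perm X) (h : ∀ x, p x ≠ x) :
    2 * orb p ≤ Nat.card X ∧ (2 * orb p = Nat.card X → ∀ x, p (p x) = x) := by
  classical
  let s := SameCycle.setoid p
  let f : Quotient s × Bool → X := fun q => if q.2 then p q.1.out else q.1.out
  have hs : ∀ x, s (p x) x := fun x =>
    (Equiv.Perm.sameCycle_apply_left).2 (SameCycle.refl _ _)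
  have hcl : ∀ q, (Quotient.mk s (f q)) = q.1 := by
    rintro ⟨q, b⟩
    cases b
    · exact Quotient.out_eq q
    · change Quotient.mk s (p q.out) = q
      rw [Quotient.sound (hs q.out), Quotient.out_eq]
  have hinj : Function.Injective f := by
    rintro ⟨q, b⟩ ⟨r, c⟩ he
    have h1 : q = r := by
      have := congrArg (Quotient.mk s) he
      rwa [hcl, hcl] at this
    subst h1
    cases b <;> cases c
    · rfl
    · exact absurd he.symm (h q.out)
    · exact absurd he (h q.out)
    · rfl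
  have hcard : Nat.card (Quotient s × Bool) = 2 * orb p := by
    rw [Nat.card_prod, Nat.card_eq_fintype_card (α := Bool), Fintype.card_bool, mul_comm]
    rfl
  constructor
  · rw [← hcard]
    exact Nat.card_le_card_of_injective f hinj
  · intro heq
    have hsurj : Function.Surjective f :=
      (hinj.bijective_of_nat_card_le (by rw [hcard, heq])).2
    have key : ∀ q : Quotient s, p (p q.out) = q.out := by
      intro q
      obtain ⟨⟨r, b⟩, hr⟩ := hsurj (p (p q.out))
      have hrq : r = q := by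
        have h2 := congrArg (Quotient.mk s) hr
        rw [hcl] at h2
        change r = _ at h2
        rw [h2, Quotient.sound (hs _), Quotient.sound (hs _), Quotient.out_eq]
      subst hrq
      cases b
      · exact hr.symm
      · exact absurd (p.injective hr).symm (h _)
    intro x
    obtain ⟨⟨q, b⟩, hq⟩ := hsurj x
    cases b
    · change q.out = x at hq
      rw [← hq]
      exact key q
    · change p q.out = x at hq
      rw [← hq, key q]

theorem four_comps {X : Type} [Finite X] (ρ τ : Perm X) (K : IsKernel ρ τ) :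
    4 * comps ρ τ ≤ orb τ := by
  classical
  let s := SameCycle.setoid ρ ⊔ SameCycle.setoid τ
  let f : Quotient s × Fin 4 → Quotient (SameCycle.setoid τ) := fun q =>
    Quotient.mk _ ((ρ ^ (q.2 : ℕ)) q.1.out)
  have hρ : ∀ (i : ℕ) x, s ((ρ ^ i) x) x := by
    intro i x
    have h1 : ρ.SameCycle ((ρ ^ i) x) x :=
      (Equiv.Perm.sameCycle_pow_left).2 (SameCycle.refl _ _)
    exact (le_sup_left : SameCycle.setoid ρ ≤ s) h1
  have key : ∀ x, ∀ i j : Fin 4, i < j →
      ¬ τ.SameCycle ((ρ ^ (i : ℕ)) x) ((ρ ^ (j : ℕ)) x) := by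
    intro x i j hij
    have e : ∀ (a b : ℕ), (ρ ^ (a + b)) x = (ρ ^ a) ((ρ ^ b) x) := by
      intro a b
      rw [pow_add, Equiv.Perm.mul_apply]
    obtain ⟨i, hi⟩ := i
    obtain ⟨j, hj⟩ := j
    simp only [Fin.mk_lt_mk] at hij
    interval_cases j <;> interval_cases i
    · exact K.k1 x
    · exact K.k2 x
    · have := K.k1 ((ρ ^ 1) x)
      exact this
    · intro h
      exact K.k1 ((ρ ^ 3) x) (by
        have h4 : ρ ((ρ ^ 3) x) = x := K.four x
        rw [h4]
        exact h.symm)
    · have := K.k2 ((ρ ^ 1) x)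
      exact this
    · have := K.k1 ((ρ ^ 2) x)
      exact this
  have hinj : Function.Injective f := by
    rintro ⟨q, i⟩ ⟨r, j⟩ he
    have h1 : τ.SameCycle ((ρ ^ (i : ℕ)) q.out) ((ρ ^ (j : ℕ)) r.out) := Quotient.exact he
    have h2 : s ((ρ ^ (i : ℕ)) q.out) ((ρ ^ (j : ℕ)) r.out) :=
      (le_sup_right : SameCycle.setoid τ ≤ s) h1
    have h3 : s q.out r.out := s.trans (s.symm (hρ i _)) (s.trans h2 (hρ j _))
    have h4 : q = r := by
      have := Quotient.sound h3
      rwa [Quotient.out_eq, Quotient.out_eq] at this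
    subst h4
    rcases lt_trichotomy i j with hij | hij | hij
    · exact absurd h1 (key _ i j hij)
    · rw [hij]
    · exact absurd h1.symm (key _ j i hij)
  have := Nat.card_le_card_of_injective f hinj
  rw [Nat.card_prod, Nat.card_fin, mul_comm] at this
  exact this

theorem in_two {X : Type} [Finite X] (p : Perm X) {x y : X} (h : p (p x) = x)
    (hxy : p.SameCycle x y) : y = x ∨ y = p x := by
  obtain ⟨m, hm⟩ := hxy.exists_nat_pow_eq
  have key : ∀ m : ℕ, (p ^ m) x = x ∨ (p ^ m) x = p x := by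
    intro m
    induction m with
    | zero => exact Or.inl rfl
    | succ m ih =>
      rw [pow_succ', Equiv.Perm.mul_apply]
      rcases ih with ih | ih
      · rw [ih]; exact Or.inr rfl
      · rw [ih, h]; exact Or.inl rfl
  have := key m
  rwa [hm] at this

variable {M : Drawing}

/-- a vertex of degree at most 2 in the graph has no crossed edge -/
theorem crossed_three (G : M.Good) (d : M.D) (hd : M.cr (M.rev d)) :
    ∃ p q r, adj (M.org d) p ∧ adj (M.org d) q ∧ adj (M.org d) r ∧
      p ≠ q ∧ p ≠ r ∧ q ≠ r ∧ p ≠ M.org d ∧ q ≠ M.org d ∧ r ≠ M.org d := by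
  set c := M.rev d with hc
  have hrc : M.rev c = d := by rw [hc, rev_rev']
  have hnd : ¬ M.cr d := not_cr_of_cr_rev hd
  have hc1 : M.cr (M.rot c) := by simpa using hd
  have hc2 : M.cr (M.rot (M.rot c)) := by simpa using hd
  have hc3 : M.cr (M.rot⁻¹ c) := by rw [cr_rotinv]; exact hd
  have h3 : M.rot⁻¹ c = M.rot (M.rot (M.rot c)) := by
    rw [Equiv.Perm.inv_eq_iff_eq]
    exact (cr_four hd).symm
  -- the ends
  have e0 := G.simple.cross_ends c hd
  have e1 := G.simple.cross_ends (M.rot c) hc1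
  have e2 := G.simple.cross_ends (M.rot (M.rot c)) hc2
  have e3 := G.simple.cross_ends (M.rot⁻¹ c) hc3
  have e3' : M.rot (M.rot⁻¹ c) = c := by simp
  rw [e3', hrc] at e3
  rw [hrc] at e0
  rw [← h3] at e2
  have l0 := G.no_loop hnd
  rw [far_of_cr hd, ← hc] at l0
  have hn1 : ¬ M.cr (M.rev (M.rot c)) := not_cr_rev hc1
  have l1 := G.no_loop hn1
  rw [far_of_cr (by simpa using hd), rev_rev', ← h3] at l1
  refine ⟨M.org (M.rev (M.rot c)), M.org (M.rev (M.rot (M.rot c))), M.org (M.rev (M.rot⁻¹ c)),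
    ?_, ?_, ?_, e1, l1.symm, e2, e0.symm, l0, e3⟩
  · -- `a`
    have h4 : M.org (M.nxt c) = M.org d := by rw [org_nxt, hrc]
    rw [← h4]
    refine G.face ?_ hn1 ?_ ?_
    · rw [cr_congr h4]; exact hnd
    · rw [fac_nxt, fac_rev_rot]
    · rw [h4]; exact e0
  · exact ⟨d, hnd, rfl, by rw [far_of_cr hd]⟩
  · have h4 : M.org (M.nxt (M.rot⁻¹ c)) = M.org (M.rev (M.rot⁻¹ c)) := org_nxt _
    rw [← h4]
    refine G.face hnd ?_ ?_ ?_
    · rw [cr_congr h4]; exact not_cr_rev hc3
    · have h5 := fac_rev_rot (M := M) (M.rot⁻¹ c)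
      rw [e3', hrc] at h5
      rw [fac_nxt, h5]
    · rw [h4]; exact e3.symm

end E2aux

open E2aux in
/-- E2 -/
theorem e2 (hT : TauStmt) (hK : KernelStmt) (hE : KEulerStmt) (hC : KCountStmt) (hO : OrbStmt)
    (hEv : EvenStmt) (hD1 : D1Stmt) (hD2 : D2Stmt) (hV : VisitStmt) : SmallStmt := by
  classical
  intro M G h3 hX
  by_contra hlt
  push Not at hlt
  obtain ⟨τ, hτ⟩ := hT M
  have K := hK M G τ hτ
  obtain ⟨c1, c2⟩ := hC M τ hτ
  have E := hE M τ hτ
  obtain ⟨d1, d2, -⟩ := hD1 M.XD M.rho τ K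
  have f4 := four_comps M.rho τ K
  obtain ⟨d0, hd0⟩ := hX
  have hcomps : 1 ≤ comps M.rho τ := by
    have : Nonempty (Quotient (SameCycle.setoid M.rho ⊔ SameCycle.setoid τ)) :=
      ⟨Quotient.mk _ ⟨d0, hd0⟩⟩
    exact Nat.card_pos
  have hn4 : 4 ≤ Nat.card M.V := by omega
  -- the separating set
  have hS : ∃ S : Finset M.V, S.card < 3 ∧ ¬ (M.graph.induce {v | v ∉ S}).Connected := by
    by_contra h
    push Not at h
    exact h3 ⟨by omega, h⟩
  obtain ⟨S, hS3, hSc⟩ := hS
  have hS2 : S.card = 2 := by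
    by_contra h
    exact hSc (G.conn2.2 S (by omega))
  have hcompl : Fintype.card {v : M.V // v ∉ S} ≤ 3 := by
    rw [Fintype.card_subtype_compl]
    rw [Nat.card_eq_fintype_card] at hlt
    have : Fintype.card {x // x ∈ S} = 2 := by simpa using hS2
    omega
  have hcompl1 : 0 < Fintype.card {v : M.V // v ∉ S} := by
    rw [Fintype.card_subtype_compl]
    rw [Nat.card_eq_fintype_card] at hn4
    have : Fintype.card {x // x ∈ S} = 2 := by simpa using hS2
    omega
  -- an isolated vertex
  have hw : ∃ w, w ∉ S ∧ ∀ v, M.graph.Adj w v → v ∈ S := by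
    by_contra hno
    push Not at hno
    apply hSc
    have hne : Nonempty {v : M.V // v ∉ S} := Fintype.card_pos_iff.1 hcompl1
    rw [SimpleGraph.connected_iff]
    refine ⟨?_, hne⟩
    intro u v
    by_contra huv
    obtain ⟨u', hu1, hu2⟩ := hno u.1 u.2
    obtain ⟨v', hv1, hv2⟩ := hno v.1 v.2
    have ru : (M.graph.induce {v | v ∉ S}).Reachable u ⟨u', hu2⟩ :=
      SimpleGraph.Adj.reachable (by exact hu1)
    have rv : (M.graph.induce {v | v ∉ S}).Reachable v ⟨v', hv2⟩ :=
      SimpleGraph.Adj.reachable (by exact hv1)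
    have n1 : u ≠ v := by rintro rfl; exact huv (SimpleGraph.Reachable.refl _)
    have n2 : u ≠ ⟨u', hu2⟩ := by
      intro h
      have := congrArg Subtype.val h
      exact hu1.ne this
    have n3 : u ≠ ⟨v', hv2⟩ := by
      intro h
      rw [← h] at rv
      exact huv rv.symm
    have n4 : v ≠ ⟨u', hu2⟩ := by
      intro h
      rw [← h] at ru
      exact huv ru
    have n5 : v ≠ ⟨v', hv2⟩ := by
      intro h
      have := congrArg Subtype.val h
      exact hv1.ne this
    have n6 : (⟨u', hu2⟩ : {v // v ∉ S}) ≠ ⟨v', hv2⟩ := by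
      intro h
      rw [h] at ru
      exact huv (ru.trans rv.symm)
    have hcard : ({u, v, ⟨u', hu2⟩, ⟨v', hv2⟩} : Finset {v : M.V // v ∉ S}).card = 4 := by
      rw [Finset.card_insert_of_notMem, Finset.card_insert_of_notMem,
        Finset.card_insert_of_notMem, Finset.card_singleton]
      · simpa using n6
      · simp only [Finset.mem_insert, Finset.mem_singleton, not_or]
        exact ⟨n4, n5⟩
      · simp only [Finset.mem_insert, Finset.mem_singleton, not_or]
        exact ⟨n1, n2, n3⟩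
    have := Finset.card_le_univ ({u, v, ⟨u', hu2⟩, ⟨v', hv2⟩} : Finset {v : M.V // v ∉ S})
    omega
  obtain ⟨w, hwS, hwN⟩ := hw
  -- three neighbours are impossible
  have three : ∀ p q r : M.V ⊕ M.X, adj (Sum.inl w) p → adj (Sum.inl w) q →
      adj (Sum.inl w) r → p ≠ q → p ≠ r → q ≠ r → False := by
    intro p q r hp hq hr h1 h2 h4
    have aux : ∀ p : M.V ⊕ M.X, adj (Sum.inl w) p → ∃ v, p = Sum.inl v ∧ v ∈ S := by
      intro p hp
      obtain ⟨d, a1, a2, a3⟩ := hp
      obtain ⟨v, hv⟩ := (not_cr_iff _).1 (not_cr_far a1)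
      rw [hv] at a3
      refine ⟨v, a3.symm, hwN v ?_⟩
      rw [graph_adj_iff G.simple]
      exact ⟨d, a1, a2, hv⟩
    obtain ⟨p', rfl, hp'⟩ := aux p hp
    obtain ⟨q', rfl, hq'⟩ := aux q hq
    obtain ⟨r', rfl, hr'⟩ := aux r hr
    have h5 : ({p', q', r'} : Finset M.V) ⊆ S := by
      intro v hv
      simp only [Finset.mem_insert, Finset.mem_singleton] at hv
      rcases hv with rfl | rfl | rfl <;> assumption
    have h6 := Finset.card_le_card h5
    rw [Finset.card_insert_of_notMem, Finset.card_insert_of_notMem,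
      Finset.card_singleton] at h6
    · omega
    · simp only [Finset.mem_singleton]
      rintro rfl
      exact h4 rfl
    · simp only [Finset.mem_insert, Finset.mem_singleton, not_or]
      exact ⟨fun h => h1 (by rw [h]), fun h => h2 (by rw [h])⟩
  have hwi : ∀ d, M.org d = Sum.inl w → ¬ M.cr (M.rev d) := by
    intro d hd hcr
    obtain ⟨p, q, r, a1, a2, a3, b1, b2, b3, -⟩ := crossed_three G d hcr
    rw [hd] at a1 a2 a3
    exact three p q r a1 a2 a3 b1 b2 b3
  obtain ⟨e, he⟩ := M.org_surj (Sum.inl w)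
  have hnc : ∀ d, M.org d = Sum.inl w → ¬ M.cr d := fun d hd => (not_cr_iff _).2 ⟨w, hd⟩
  have hint : inter e := by
    intro e' he'
    rw [he] at he'
    exact ⟨hnc e' he', hwi e' he'⟩
  have hadj : ∀ d, M.org d = Sum.inl w → adj (Sum.inl w) (M.org (M.rev d)) := by
    intro d hd
    exact ⟨d, hnc d hd, hd, by rw [far_of_not (hwi d hd)]⟩
  have hends : ∀ d d', M.org d = Sum.inl w → M.org d' = Sum.inl w → d ≠ d' →
      M.org (M.rev d) ≠ M.org (M.rev d') := by
    intro d d' hd hd' hne h
    apply hne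
    refine G.no_multi (hnc d hd) (hd.trans hd'.symm) ?_
    rw [far_of_not (hwi d hd), far_of_not (hwi d' hd')]
    exact h
  have hrr : M.rot (M.rot e) = e := by
    by_contra hne
    have h1 : M.rot e ≠ e := (hV M G).2 e (hnc e he)
    have h2 : M.rot (M.rot e) ≠ M.rot e := fun h => h1 (M.rot.injective h)
    have o1 : M.org (M.rot e) = Sum.inl w := by rw [org_rot, he]
    have o2 : M.org (M.rot (M.rot e)) = Sum.inl w := by rw [org_rot, org_rot, he]
    exact three _ _ _ (hadj e he) (hadj _ o1) (hadj _ o2) (hends _ _ he o1 h1.symm)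
      (hends _ _ he o2 (fun h => hne h.symm)) (hends _ _ o1 o2 h2.symm)
  have hgs : gs (M.nxt e) := hEv M G ⟨d0, hd0⟩ e hint (Or.inl hrr)
  have hpack := (hO M G ⟨d0, hd0⟩ τ hτ).2 e hint hgs ⟨kp (M.nxt e), cr_kp hgs⟩ rfl
  have hpp := hpack.f hrr
  -- the interior vertex
  have hIV : 1 ≤ Nat.card (IV M) := by
    have : Finite (IV M) := Subtype.finite
    have : Nonempty (IV M) := ⟨⟨w, hwi⟩⟩
    exact Nat.card_pos
  have d1' : ∀ x, (M.rho⁻¹ * τ) x ≠ x := d1
  obtain ⟨t1, t2⟩ := two_orb (M.rho⁻¹ * τ) d1'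
  have hXpos : 0 < Nat.card M.XD := by
    have : Nonempty M.XD := ⟨⟨d0, hd0⟩⟩
    exact Nat.card_pos
  have hc12 : Nat.card M.X = 1 ∨ Nat.card M.X = 2 := by omega
  rcases hc12 with hc | hc
  · -- one crossing
    have ho : orb (M.rho⁻¹ * τ) = 1 := by omega
    have hsub : ∀ x y : M.XD, (M.rho⁻¹ * τ).SameCycle x y := by
      intro x y
      unfold orb at ho
      have := (Nat.card_eq_one_iff_unique.1 ho).1
      exact Quotient.exact (Subsingleton.elim (Quotient.mk (SameCycle.setoid (M.rho⁻¹ * τ)) x)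
        (Quotient.mk _ y))
    let x : M.XD := ⟨kp (M.nxt e), cr_kp hgs⟩
    let g : Bool → M.XD := fun b => if b then x else (M.rho⁻¹ * τ) x
    have hg : Function.Surjective g := by
      intro y
      rcases in_two (M.rho⁻¹ * τ) (x := x) (y := y) hpp (hsub x y) with h | h
      · exact ⟨true, h.symm⟩
      · exact ⟨false, h.symm⟩
    have h5 := Nat.card_le_card_of_surjective g hg
    rw [Nat.card_eq_fintype_card (α := Bool), Fintype.card_bool] at h5
    omega
  · have h6 := hD2 M.XD M.rho τ K E (t2 (by omega))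
    omega

end Pool.Agent.H74.OneP
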